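import Mathlib

/-!
# Mixed derivatives of separately holomorphic bounded functions
-/

set_option autoImplicit false

open Set Filter Metric Topology Complex

namespace Pool.Agent.X151.MB

/-- Cauchy's estimate. -/
theorem cauchy_est {f : ℂ → ℂ} {z : ℂ} {r M : ℝ} (hr : 0 < r)
    (hf : DifferentiableOn ℂ f (ball z r)) (hM : ∀ x ∈ ball z r, ‖f x‖ ≤ M) :
    ‖deriv f z‖ ≤ 2 * M / r := by
  have h1 := Complex.norm_deriv_le_of_forall_mem_sphere_norm_le (f := f) (c := z) (R := r / 2)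
    (C := M) (by positivity) (by
      apply DifferentiableOn.diffContOnCl
      rw [closure_ball z (by positivity : r / 2 ≠ 0)]
      exact hf.mono (closedBall_subset_ball (by linarith))) (fun x hx => hM x (by
        rw [mem_sphere] at hx
        rw [mem_ball, hx]
        linarith))
  refine h1.trans (le_of_eq ?_)
  field_simp

/-- The first order Taylor expansion with a uniform bound. -/
theorem taylor_one {f : ℂ → ℂ} {z : ℂ} {r M : ℝ} (hr : 0 < r)
    (hf : DifferentiableOn ℂ f (ball z r)) (hM : ∀ x ∈ ball z r, ‖f x‖ ≤ M) {h : ℂ}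
    (hh : ‖h‖ < r / 4) : ‖f (z + h) - f z - h * deriv f z‖ ≤ 32 * M / r ^ 2 * ‖h‖ ^ 2 := by
  have hM0 : 0 ≤ M := (norm_nonneg _).trans (hM z (mem_ball_self hr))
  have hd1 : ∀ x ∈ ball z (r / 2), ‖deriv f x‖ ≤ 4 * M / r := by
    intro x hx
    rw [mem_ball] at hx
    have hsub : ball x (r / 2) ⊆ ball z r := by
      intro y hy
      rw [mem_ball] at hy ⊢
      have := dist_triangle y x z
      linarith
    have h1 := cauchy_est (f := f) (z := x) (r := r / 2) (M := M) (by positivity) (hf.mono hsub)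
      (fun y hy => hM y (hsub hy))
    refine h1.trans (le_of_eq ?_)
    field_simp
    norm_num
    ring
  have hfd : DifferentiableOn ℂ (deriv f) (ball z (r / 2)) :=
    (hf.deriv isOpen_ball).mono (ball_subset_ball (by linarith))
  have hd2 : ∀ x ∈ ball z (r / 4), ‖deriv (deriv f) x‖ ≤ 32 * M / r ^ 2 := by
    intro x hx
    rw [mem_ball] at hx
    have hsub : ball x (r / 4) ⊆ ball z (r / 2) := by
      intro y hy
      rw [mem_ball] at hy ⊢
      have := dist_triangle y x z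
      linarith
    have h1 := cauchy_est (f := deriv f) (z := x) (r := r / 4) (M := 4 * M / r) (by positivity)
      (hfd.mono hsub) (fun y hy => hd1 y (hsub hy))
    refine h1.trans (le_of_eq ?_)
    field_simp
    norm_num
    ring
  set s : ℝ := ‖h‖ with hs
  have hs0 : 0 ≤ s := norm_nonneg _
  have hcc : closedBall z s ⊆ ball z (r / 4) := closedBall_subset_ball hh
  have hzc : z ∈ closedBall z s := mem_closedBall_self hs0
  have hd3 : ∀ x ∈ closedBall z s, ‖deriv f x - deriv f z‖ ≤ 32 * M / r ^ 2 * s := by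
    intro x hx
    have h1 := (convex_closedBall z s).norm_image_sub_le_of_norm_deriv_le (f := deriv f)
      (C := 32 * M / r ^ 2) (fun y hy => (hfd.differentiableAt
        (isOpen_ball.mem_nhds (ball_subset_ball (by linarith) (hcc hy)))))
      (fun y hy => hd2 y (hcc hy)) hzc hx
    refine h1.trans ?_
    rw [mem_closedBall, dist_eq_norm] at hx
    exact mul_le_mul_of_nonneg_left hx (by positivity)
  have hfa : ∀ y ∈ closedBall z s, DifferentiableAt ℂ f y := fun y hy =>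
    hf.differentiableAt (isOpen_ball.mem_nhds (ball_subset_ball (by linarith) (hcc hy)))
  have hzh : z + h ∈ closedBall z s := by
    rw [mem_closedBall, dist_eq_norm, add_sub_cancel_left]
  have h1 := (convex_closedBall z s).norm_image_sub_le_of_norm_hasDerivWithin_le
    (f := fun y => f y - y * deriv f z) (f' := fun y => deriv f y - deriv f z)
    (C := 32 * M / r ^ 2 * s) (fun y hy => by
      have h2 := (hfa y hy).hasDerivAt.sub ((hasDerivAt_id y).mul_const (deriv f z))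
      rw [one_mul] at h2
      exact h2.hasDerivWithinAt) hd3 hzc hzh
  rw [add_sub_cancel_left] at h1
  have h2 : f (z + h) - (z + h) * deriv f z - (f z - z * deriv f z) =
      f (z + h) - f z - h * deriv f z := by ring
  rw [h2] at h1
  refine h1.trans (le_of_eq ?_)
  rw [← hs]
  ring

/-- Mixed derivatives. -/
theorem mixed {Φ : ℂ → ℂ → ℂ} {z₀ : ℂ} {δ M : ℝ} (hδ : 0 < δ)
    (h1 : ∀ t ∈ ball (0 : ℂ) 1, DifferentiableOn ℂ (Φ t) (ball z₀ δ))
    (h2 : ∀ z ∈ ball z₀ δ, DifferentiableOn ℂ (fun t => Φ t z) (ball 0 1))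
    (hM : ∀ t ∈ ball (0 : ℂ) 1, ∀ z ∈ ball z₀ δ, ‖Φ t z‖ ≤ M) :
    DifferentiableOn ℂ (fun t => deriv (Φ t) z₀) (ball 0 1) ∧
    ∀ t ∈ ball (0 : ℂ) 1, HasDerivAt (fun z => deriv (fun t => Φ t z) t)
      (deriv (fun t => deriv (Φ t) z₀) t) z₀ := by
  set D : ℂ → ℂ → ℂ := fun h t => h⁻¹ * (Φ t (z₀ + h) - Φ t z₀) with hD
  have hM0 : 0 ≤ M := (norm_nonneg _).trans
    (hM 0 (mem_ball_self one_pos) z₀ (mem_ball_self hδ))
  have hzin : ∀ h : ℂ, ‖h‖ < δ → z₀ + h ∈ ball z₀ δ := by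
    intro h hh
    rw [mem_ball, dist_eq_norm, add_sub_cancel_left]
    exact hh
  have hsm : ∀ᶠ h : ℂ in 𝓝[≠] 0, ‖h‖ < δ / 4 := by
    have h3 : ∀ᶠ h : ℂ in 𝓝 0, ‖h‖ < δ / 4 := by
      filter_upwards [ball_mem_nhds (0 : ℂ) (by positivity : 0 < δ / 4)] with h hh
      exact mem_ball_zero_iff.mp hh
    exact h3.filter_mono nhdsWithin_le_nhds
  have hDd : ∀ᶠ h : ℂ in 𝓝[≠] 0, DifferentiableOn ℂ (D h) (ball 0 1) := by
    filter_upwards [hsm] with h hh
    exact ((h2 _ (hzin h (by linarith))).sub (h2 _ (mem_ball_self hδ))).const_mul _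
  have hunif : TendstoLocallyUniformlyOn D (fun t => deriv (Φ t) z₀) (𝓝[≠] 0) (ball 0 1) := by
    apply TendstoUniformlyOn.tendstoLocallyUniformlyOn
    rw [Metric.tendstoUniformlyOn_iff]
    intro ε hε
    have h4 : ∀ᶠ h : ℂ in 𝓝[≠] 0, 32 * M / δ ^ 2 * ‖h‖ < ε := by
      have h5 : Tendsto (fun h : ℂ => 32 * M / δ ^ 2 * ‖h‖) (𝓝[≠] 0) (𝓝 0) := by
        have h6 : Continuous fun h : ℂ => 32 * M / δ ^ 2 * ‖h‖ := by fun_prop
        have h7 := h6.tendsto 0
        simp only [norm_zero, mul_zero] at h7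
        exact h7.mono_left nhdsWithin_le_nhds
      exact h5.eventually_lt_const hε
    filter_upwards [hsm, h4, self_mem_nhdsWithin] with h hh1 hh2 hh3 t ht
    have hne : h ≠ 0 := hh3
    have hn : 0 < ‖h‖ := norm_pos_iff.mpr hne
    have h5 := taylor_one hδ (h1 t ht) (hM t ht) hh1
    rw [dist_comm, dist_eq_norm]
    have h6 : D h t - deriv (Φ t) z₀ = h⁻¹ * (Φ t (z₀ + h) - Φ t z₀ - h * deriv (Φ t) z₀) := by
      rw [hD]
      field_simp
    rw [h6, norm_mul, norm_inv]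
    calc ‖h‖⁻¹ * _ ≤ ‖h‖⁻¹ * (32 * M / δ ^ 2 * ‖h‖ ^ 2) :=
          mul_le_mul_of_nonneg_left h5 (by positivity)
      _ = 32 * M / δ ^ 2 * ‖h‖ := by field_simp
      _ < ε := hh2
  refine ⟨hunif.differentiableOn hDd isOpen_ball, ?_⟩
  intro t ht
  have h3 := (hunif.deriv hDd isOpen_ball).tendsto_at ht
  rw [hasDerivAt_iff_tendsto_slope_zero]
  refine h3.congr' ?_
  filter_upwards [hsm] with h hh
  simp only [Function.comp, hD, smul_eq_mul]
  have h4 : DifferentiableAt ℂ (fun t => Φ t (z₀ + h)) t :=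
    (h2 _ (hzin h (by linarith))).differentiableAt (isOpen_ball.mem_nhds ht)
  have h5 : DifferentiableAt ℂ (fun t => Φ t z₀) t :=
    (h2 _ (mem_ball_self hδ)).differentiableAt (isOpen_ball.mem_nhds ht)
  exact ((h4.hasDerivAt.sub h5.hasDerivAt).const_mul h⁻¹).deriv

/-- Mixed derivatives of second order. -/
theorem mixed_two {Φ : ℂ → ℂ → ℂ} {z₀ : ℂ} {δ M : ℝ} (hδ : 0 < δ)
    (h1 : ∀ t ∈ ball (0 : ℂ) 1, DifferentiableOn ℂ (Φ t) (ball z₀ δ))
    (h2 : ∀ z ∈ ball z₀ δ, DifferentiableOn ℂ (fun t => Φ t z) (ball 0 1))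
    (hM : ∀ t ∈ ball (0 : ℂ) 1, ∀ z ∈ ball z₀ δ, ‖Φ t z‖ ≤ M) :
    DifferentiableOn ℂ (fun t => deriv (deriv (Φ t)) z₀) (ball 0 1) ∧
    ∀ t ∈ ball (0 : ℂ) 1, HasDerivAt (deriv (fun z => deriv (fun t => Φ t z) t))
      (deriv (fun t => deriv (deriv (Φ t)) z₀) t) z₀ := by
  have hsub : ∀ z ∈ ball z₀ (δ / 2), ball z (δ / 2) ⊆ ball z₀ δ := by
    intro z hz y hy
    rw [mem_ball] at hz hy ⊢
    have := dist_triangle y z z₀
    linarith
  have hmix : ∀ z ∈ ball z₀ (δ / 2), _ := fun z hz =>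
    mixed (Φ := Φ) (z₀ := z) (δ := δ / 2) (M := M) (by positivity)
      (fun t ht => (h1 t ht).mono (hsub z hz)) (fun y hy => h2 y (hsub z hz hy))
      (fun t ht y hy => hM t ht y (hsub z hz hy))
  have h3 := mixed (Φ := fun t => deriv (Φ t)) (z₀ := z₀) (δ := δ / 2) (M := 2 * M / (δ / 2))
    (by positivity) (fun t ht => ((h1 t ht).deriv isOpen_ball).mono (ball_subset_ball (by linarith)))
    (fun z hz => (hmix z hz).1) (fun t ht z hz =>
      cauchy_est (by positivity) ((h1 t ht).mono (hsub z hz)) fun y hy => hM t ht y (hsub z hz hy))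
  refine ⟨h3.1, fun t ht => ?_⟩
  refine (h3.2 t ht).congr_of_eventuallyEq ?_
  filter_upwards [ball_mem_nhds z₀ (by positivity : 0 < δ / 2)] with z hz
  exact ((hmix z hz).2 t ht).deriv

end Pool.Agent.X151.MB
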