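import Mathlib
import Pool.Agent.X151.MD.Lim
import Pool.Agent.X151.MB.Mixed
import Pool.Agent.Helper202.Univ
import Pool.Agent.Helper240.ZFM.B1

/-!
# The motion of the escaping points as a family of univalent functions
-/

set_option autoImplicit false

open Complex Topology Filter Metric MeasureTheory Set Polynomial N62a1eb23

namespace Pool.Agent.X151.MB

open Pool.Agent.H713R2 Pool.Agent.H712R2 Pool.Agent.H713R2.AR Pool.Agent.X151.MH
open Pool.Agent.W746.LD (orb S hasDerivAt_orb orb_succ orb_zero P_eq_orb)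
open Pool.Agent.X151.MU Pool.Agent.X151.MA Pool.Agent.X151.MD

variable {n : ℕ}

/-- The motion of the points outside of a level set. -/
theorem exists_family (hn : 2 ≤ n) {c : ℂ} {r : ℝ} (hr : 0 < r)
    (hsub : ball c r ⊆ multibrotSet n) (j : ℕ) : ∃ Φ : ℂ → ℂ → ℂ,
      (∀ t ∈ ball (0 : ℂ) 1, DifferentiableOn ℂ (Φ t) (EE n c j)ᶜ ∧ InjOn (Φ t) (EE n c j)ᶜ) ∧
      (∀ z ∈ (EE n c j)ᶜ, DifferentiableOn ℂ (fun t => Φ t z) (ball 0 1) ∧ Φ 0 z = z ∧
        (∀ t ∈ ball (0 : ℂ) 1, orb n (c + r * t) (Φ t z) j = orb n c z j) ∧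
        HasDerivAt (fun t => Φ t z) (r * (1 - S n c z (j + 1))) 0) := by
  obtain ⟨G, hG⟩ := exists_seq hn
  have h0 : (0 : ℂ) ∈ ball (0 : ℂ) 1 := mem_ball_self one_pos
  have hcM : c ∈ multibrotSet n := hsub (mem_ball_self hr)
  have hcB : Bd n c := (mem_multibrot_iff hn _).mp hcM
  have hB : ∀ t ∈ ball c r, Bd n t := fun t ht => (mem_multibrot_iff hn _).mp (hsub ht)
  set R : ℝ := rad n j with hR
  set ρ : ℝ := rho n j with hρdef
  have hρR : ρ < R := rho_lt hn j
  have hext : ∀ t ∈ ball c r, IsExt R (fun x => G j (t, x)) := fun t ht => isExt_seq hn hG j (hB t ht)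
  set Ψ : ℂ → ℂ := fun x => x⁻¹ * G j (c, x) with hΨ
  set s : Set ℂ := {x | x ≠ 0 ∧ ‖x‖ < ρ} with hs
  have hsop : IsOpen s := isOpen_ne.inter (isOpen_lt continuous_norm continuous_const)
  have hsR : ∀ x ∈ s, x ∈ ball (0 : ℂ) R := fun x hx => by
    rw [mem_ball_zero_iff]; exact hx.2.trans hρR
  have hΨd : ∀ t ∈ ball c r, DifferentiableOn ℂ (fun x => x⁻¹ * G j (t, x)) s := by
    intro t ht x hx
    exact ((differentiableAt_inv hx.1).mul ((hext t ht).diff.differentiableAt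
      (isOpen_ball.mem_nhds (hsR x hx)))).differentiableWithinAt
  have hΨi : ∀ t ∈ ball c r, InjOn (fun x => x⁻¹ * G j (t, x)) s := by
    intro t ht x hx y hy hxy
    exact (hext t ht).inj x (hsR x hx) y (hsR y hy) hx.1 hy.1 hxy
  have hcr : c ∈ ball c r := mem_ball_self hr
  have himg : Ψ '' s = (EE n c j)ᶜ := by
    have h1 := compl_UU_eq hn hG j hcB
    rw [← h1, compl_compl]
    rfl
  set X : ℂ → ℂ := Function.invFunOn Ψ s with hX
  have hXm : ∀ z ∈ (EE n c j)ᶜ, X z ∈ s ∧ Ψ (X z) = z := by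
    intro z hz
    rw [← himg] at hz
    exact ⟨Function.invFunOn_mem hz, Function.invFunOn_eq hz⟩
  have hXd : DifferentiableOn ℂ X (EE n c j)ᶜ := by
    intro z hz
    rw [← himg] at hz
    exact (Pool.Agent.Helper202.Univ.differentiableAt_inv hsop (hΨd c hcr) (hΨi c hcr)
      hz).differentiableWithinAt
  have hγ : ∀ t ∈ ball (0 : ℂ) 1, c + r * t ∈ ball c r := fun t ht => scaled_ball hr ht
  refine ⟨fun t z => (X z)⁻¹ * G j (c + r * t, X z), ?_, ?_⟩
  · intro t ht
    refine ⟨?_, ?_⟩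
    · exact (hΨd _ (hγ t ht)).comp hXd fun z hz => (hXm z hz).1
    · intro z hz z' hz' heq
      have h1 := hΨi _ (hγ t ht) (hXm z hz).1 (hXm z' hz').1 heq
      rw [← (hXm z hz).2, ← (hXm z' hz').2, h1]
  · intro z hz
    obtain ⟨hx, hxz⟩ := hXm z hz
    have hbig : 2 < ‖orb n c z j‖ := by
      have h2 : ¬ ‖orb n c z j‖ ≤ 3 := hz
      linarith
    have hAA : ∀ t ∈ ball c r, (t, X z) ∈ AA n j := fun t ht =>
      mem_AA_of_Bd hn (hB t ht) (hsR _ hx)
    have h1 : DifferentiableOn ℂ (fun t => (X z)⁻¹ * G j (t, X z)) (ball c r) := fun t ht =>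
      ((seq_diff_param hn hG j t (X z) (hAA t ht)).const_mul _).differentiableWithinAt
    have h3 : ∀ t ∈ ball c r, orb n t ((X z)⁻¹ * G j (t, X z)) j = orb n c z j := by
      intro t ht
      have h4 := (hG.isG j).conj t (X z) (hAA t ht) hx.1
      have h5 := (hG.isG j).conj c (X z) (hAA c hcr) hx.1
      rw [← fc_iter_eq, ← fc_iter_eq, h4, ← h5]
      exact congrArg _ hxz
    have h6 : Differentiable ℂ fun t : ℂ => c + r * t := by fun_prop
    refine ⟨h1.comp h6.differentiableOn fun t ht => hγ t ht, ?_, fun t ht => h3 _ (hγ t ht), ?_⟩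
    · simp only [mul_zero, add_zero]
      exact hxz
    · have h4 := deriv_motion hn hr hsub hbig h1 hxz h3
      have h5 : HasDerivAt (fun t : ℂ => c + r * t) r 0 := by
        simpa using ((hasDerivAt_id (0 : ℂ)).const_mul (r : ℂ)).const_add c
      have h7 : HasDerivAt (fun t => (X z)⁻¹ * G j (t, X z)) (1 - S n c z (j + 1))
          (c + (r : ℂ) * 0) := by
        rw [mul_zero, add_zero]; exact h4
      have h8 := h7.comp (0 : ℂ) h5
      refine h8.congr_deriv ?_
      ring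

theorem orb_grow (hn : 2 ≤ n) {c : ℂ} (hc : ‖c‖ ≤ 2) {w : ℂ} (hw : 3 < ‖w‖) (k : ℕ) :
    ‖w‖ ≤ ‖orb n c w k‖ := by
  induction k with
  | zero => simp
  | succ k ih =>
    have h1 := fc_grow hn hc (w := orb n c w k) (by linarith)
    have h2 : fc n c (orb n c w k) = orb n c w (k + 1) := by rw [orb_succ]; rfl
    rw [h2] at h1
    linarith [norm_nonneg w]

/-- The Bloch bound at a finite level. -/
theorem bloch_level (hn : 2 ≤ n) {c : ℂ} {r : ℝ} (hr : 0 < r)
    (hsub : ball c r ⊆ multibrotSet n) (j : ℕ) {z₀ : ℂ} {δ : ℝ} (hδ : 0 < δ)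
    (hball : closedBall z₀ δ ⊆ (EE n c j)ᶜ) :
    r * δ * ‖deriv (deriv (fun z => 1 - S n c z (j + 1))) z₀‖ ≤ 4 := by
  obtain ⟨Φ, hΦ1, hΦ2⟩ := exists_family hn hr hsub j
  have h0 : (0 : ℂ) ∈ ball (0 : ℂ) 1 := mem_ball_self one_pos
  have hz0 : z₀ ∈ ball z₀ δ := mem_ball_self hδ
  have hbs : ball z₀ δ ⊆ (EE n c j)ᶜ := ball_subset_closedBall.trans hball
  have hcont : Continuous fun w => orb n c w j :=
    continuous_iff_continuousAt.mpr fun w => (hasDerivAt_orb w j).continuousAt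
  obtain ⟨M₁, hM₁⟩ := (isCompact_closedBall z₀ δ).exists_bound_of_continuousOn hcont.continuousOn
  have hM : ∀ t ∈ ball (0 : ℂ) 1, ∀ z ∈ ball z₀ δ, ‖Φ t z‖ ≤ max 3 M₁ := by
    intro t ht z hz
    by_contra hcon
    rw [not_le] at hcon
    have h1 : 3 < ‖Φ t z‖ := (le_max_left _ _).trans_lt hcon
    have h2 := orb_grow hn (norm_le_two_of_sub hn (hsub (scaled_ball hr ht))) h1 j
    rw [(hΦ2 z (hbs hz)).2.2.1 t ht] at h2
    have h3 := hM₁ z (ball_subset_closedBall hz)
    have h4 : M₁ < ‖Φ t z‖ := (le_max_right _ _).trans_lt hcon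
    linarith
  obtain ⟨hA1, hA2⟩ := mixed hδ (fun t ht => (hΦ1 t ht).1.mono hbs)
    (fun z hz => (hΦ2 z (hbs hz)).1) hM
  obtain ⟨hB1, hB2⟩ := mixed_two hδ (fun t ht => (hΦ1 t ht).1.mono hbs)
    (fun z hz => (hΦ2 z (hbs hz)).1) hM
  -- the velocity
  set v : ℂ → ℂ := fun z => 1 - S n c z (j + 1) with hv
  have hvel : (fun z => deriv (fun t => Φ t z) 0) =ᶠ[𝓝 z₀] fun z => r * v z := by
    filter_upwards [isOpen_ball.mem_nhds hz0] with z hz
    exact ((hΦ2 z (hbs hz)).2.2.2).deriv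
  have hvd : DifferentiableOn ℂ v (ball z₀ δ) := by
    intro z hz
    have hcM : c ∈ multibrotSet n := hsub (mem_ball_self hr)
    have hbig : 2 < ‖orb n c z j‖ := by
      have h2 : ¬ ‖orb n c z j‖ ≤ 3 := hbs hz
      linarith
    exact ((Pool.Agent.W746.LD.differentiableAt_S (j + 1) fun i _ =>
      Pool.Agent.W746.LD.P_ne_zero hn fun m hm =>
        orb_ne_of_big hn hcM hbig m (by omega)).const_sub 1).differentiableWithinAt
  -- Bieberbach's inequality for every parameter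
  set A : ℂ → ℂ := fun t => deriv (Φ t) z₀ with hA
  set B : ℂ → ℂ := fun t => deriv (deriv (Φ t)) z₀ with hB
  have hAne : ∀ t ∈ ball (0 : ℂ) 1, A t ≠ 0 := fun t ht =>
    Pool.Agent.Helper202.Univ.deriv_ne_zero isOpen_ball ((hΦ1 t ht).1.mono hbs)
      ((hΦ1 t ht).2.mono hbs) hz0
  have hδC : (δ : ℂ) ≠ 0 := by exact_mod_cast hδ.ne'
  have hbieb : ∀ t ∈ ball (0 : ℂ) 1, ‖B t / A t‖ ≤ 4 / δ := by
    intro t ht
    have hmem : ∀ y ∈ ball (0 : ℂ) 1, z₀ + δ * y ∈ ball z₀ δ := fun y hy => scaled_ball hδ hy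
    set g : ℂ → ℂ := fun y => Φ t (z₀ + δ * y) with hg
    have hlin : ∀ y : ℂ, HasDerivAt (fun y : ℂ => z₀ + δ * y) δ y := fun y => by
      simpa using ((hasDerivAt_id y).const_mul (δ : ℂ)).const_add z₀
    have hgd : ∀ y ∈ ball (0 : ℂ) 1, HasDerivAt g (deriv (Φ t) (z₀ + δ * y) * δ) y := by
      intro y hy
      have h1 : HasDerivAt (Φ t) (deriv (Φ t) (z₀ + δ * y)) (z₀ + δ * y) :=
        (((hΦ1 t ht).1.mono hbs).differentiableAt (isOpen_ball.mem_nhds (hmem y hy))).hasDerivAt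
      exact h1.comp y (hlin y)
    have hgi : InjOn g (ball 0 1) := by
      intro y hy y' hy' h
      have h1 := (hΦ1 t ht).2 (hbs (hmem y hy)) (hbs (hmem y' hy')) h
      have h2 : (δ : ℂ) * y = δ * y' := by linear_combination h1
      exact mul_left_cancel₀ hδC h2
    have hbb := ZFM.J_b1.bieb (fun y hy => (hgd y hy).differentiableAt.differentiableWithinAt) hgi
    have e1 : deriv g 0 = A t * δ := by
      rw [(hgd 0 h0).deriv, mul_zero, add_zero]
    have e2 : deriv (deriv g) 0 = B t * δ * δ := by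
      have h1 : deriv g =ᶠ[𝓝 0] fun y => deriv (Φ t) (z₀ + δ * y) * δ := by
        filter_upwards [isOpen_ball.mem_nhds h0] with y hy
        exact (hgd y hy).deriv
      rw [h1.deriv_eq]
      have h2 : HasDerivAt (deriv (Φ t)) (B t) (z₀ + δ * 0) := by
        rw [mul_zero, add_zero]
        exact ((((hΦ1 t ht).1.mono hbs).deriv isOpen_ball).differentiableAt
          (isOpen_ball.mem_nhds hz0)).hasDerivAt
      exact ((h2.comp (0 : ℂ) (hlin 0)).mul_const (δ : ℂ)).deriv
    rw [e1, e2, norm_mul, norm_mul, norm_mul, Complex.norm_real, Real.norm_eq_abs,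
      abs_of_pos hδ] at hbb
    have hApos := norm_pos_iff.mpr (hAne t ht)
    rw [norm_div, div_le_div_iff₀ hApos hδ]
    have h5 : δ * (‖B t‖ * δ) ≤ δ * (4 * ‖A t‖) := by nlinarith
    exact le_of_mul_le_mul_left h5 hδ
  -- the quotient vanishes at the origin
  have hid : Φ 0 =ᶠ[𝓝 z₀] fun z => z := by
    filter_upwards [isOpen_ball.mem_nhds hz0] with z hz
    exact (hΦ2 z (hbs hz)).2.1
  have hA0 : A 0 = 1 := by
    rw [hA]
    simp only
    rw [hid.deriv_eq]
    exact deriv_id z₀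
  have hB0 : B 0 = 0 := by
    rw [hB]
    simp only
    rw [hid.deriv.deriv_eq]
    have h1 : deriv (fun z : ℂ => z) = fun _ => 1 := by
      funext z
      exact deriv_id z
    rw [h1]
    exact deriv_const z₀ 1
  set q : ℂ → ℂ := fun t => B t / A t with hq
  have hqd : DifferentiableOn ℂ q (ball 0 1) := hB1.div hA1 hAne
  have hq0 : q 0 = 0 := by rw [hq]; simp only; rw [hB0, zero_div]
  have hqder : ‖deriv q 0‖ ≤ 4 / δ := by
    have h1 := Complex.norm_deriv_le_div_of_mapsTo_ball (f := q) (c := 0) (R₁ := 1) (R₂ := 4 / δ)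
      hqd (by
        intro t ht
        rw [hq0, mem_closedBall_zero_iff]
        exact hbieb t ht) one_pos
    simpa using h1
  -- the derivative of the quotient
  have hBder : HasDerivAt B (r * deriv (deriv v) z₀) 0 := by
    have h1 : HasDerivAt B (deriv B 0) 0 :=
      (hB1.differentiableAt (isOpen_ball.mem_nhds h0)).hasDerivAt
    have h2 := hB2 0 h0
    have h3 : deriv (fun z => deriv (fun t => Φ t z) 0) =ᶠ[𝓝 z₀] fun z => r * deriv v z := by
      refine hvel.deriv.trans ?_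
      filter_upwards [isOpen_ball.mem_nhds hz0] with z hz
      exact deriv_const_mul (r : ℂ) (hvd.differentiableAt (isOpen_ball.mem_nhds hz))
    have h4 : HasDerivAt (fun z => (r : ℂ) * deriv v z) (r * deriv (deriv v) z₀) z₀ :=
      (((hvd.deriv isOpen_ball).differentiableAt (isOpen_ball.mem_nhds hz0)).hasDerivAt).const_mul _
    have h5 := (h4.congr_of_eventuallyEq h3).unique h2
    rw [← h5] at h1
    exact h1
  have hAder : HasDerivAt A (deriv A 0) 0 :=
    (hA1.differentiableAt (isOpen_ball.mem_nhds h0)).hasDerivAt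
  have hqd' : deriv q 0 = r * deriv (deriv v) z₀ := by
    have h1 := (hBder.div hAder (hAne 0 h0)).deriv
    rw [hA0, hB0] at h1
    have h2 : deriv q 0 = deriv (B / A) 0 := rfl
    rw [h2, h1]
    ring
  rw [hqd', norm_mul, Complex.norm_real, Real.norm_eq_abs, abs_of_pos hr, le_div_iff₀ hδ] at hqder
  linarith

end Pool.Agent.X151.MB
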