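import Mathlib
import Pool.Agent.X151.MB.Family

/-!
# The Bloch bound for the velocity of the escaping points
-/

set_option autoImplicit false

open Complex Topology Filter Metric MeasureTheory Set Polynomial N62a1eb23

namespace Pool.Agent.X151.MB

open Pool.Agent.H713R2 Pool.Agent.H712R2 Pool.Agent.H713R2.AR Pool.Agent.X151.MH
open Pool.Agent.W746.LD (orb S hasDerivAt_orb orb_succ orb_zero P_eq_orb)
open Pool.Agent.X151.MU Pool.Agent.X151.MA Pool.Agent.X151.MD

variable {n : ℕ}

theorem continuous_orb (n : ℕ) (c : ℂ) (k : ℕ) : Continuous fun w => orb n c w k :=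
  continuous_iff_continuousAt.mpr fun w => (hasDerivAt_orb w k).continuousAt

/-- A point with a large iterate escapes. -/
theorem esc_of_big (hn : 2 ≤ n) {c : ℂ} (hc2 : ‖c‖ ≤ 2) {w : ℂ} {m : ℕ} (hw : 3 < ‖orb n c w m‖) :
    Esc n c w := by
  have h2 : Esc n c (orb n c w m) := by
    unfold Esc
    have h3 : Tendsto (fun k => ‖orb n c (orb n c w m) k‖) atTop atTop := by
      have h4 : ∀ k, (2 : ℝ) ^ k * 3 < ‖orb n c (orb n c w m) k‖ := by
        intro k
        induction k with
        | zero =>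
          rw [pow_zero, one_mul]
          exact hw
        | succ k ih =>
          have h1 : (1 : ℝ) ≤ 2 ^ k := one_le_pow₀ (by norm_num)
          have h5 := fc_grow hn hc2 (w := orb n c (orb n c w m) k) (by linarith)
          have h6 : fc n c (orb n c (orb n c w m) k) = orb n c (orb n c w m) (k + 1) := by
            rw [orb_succ]; rfl
          rw [h6] at h5
          rw [pow_succ]
          linarith
      apply tendsto_atTop_mono (f := fun k : ℕ => (2 : ℝ) ^ k)
      · intro k
        have := h4 k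
        have h2 : (0 : ℝ) < 2 ^ k := by positivity
        linarith
      · exact tendsto_pow_atTop_atTop_of_one_lt (by norm_num)
    exact tendsto_norm_atTop_iff_cobounded.mp h3
  unfold Esc at h2 ⊢
  have h3 : (fun k => orb n c (orb n c w m) k) = fun k => orb n c w (k + m) := by
    funext k
    rw [← Pool.Agent.W746.LD.orb_add, add_comm]
  rw [h3] at h2
  exact (tendsto_add_atTop_iff_nat m).mp h2

/-- Uniform convergence near an escaping point. -/
theorem unif_V (hn : 2 ≤ n) {c : ℂ} (hc : c ∈ multibrotSet n) {z : ℂ} (hz : Esc n c z) :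
    ∃ ε : ℝ, 0 < ε ∧ (∀ j, DifferentiableOn ℂ (fun w => 1 - S n c w (j + 1)) (ball z ε)) ∧
      TendstoUniformlyOn (fun j w => 1 - S n c w (j + 1)) (V n c) atTop (ball z ε) := by
  have hc2 : ‖c‖ ≤ 2 := norm_le_two_of_sub hn hc
  obtain ⟨m, hm⟩ := (eventually_big hz 3).exists
  set U : Set ℂ := {w | 3 < ‖orb n c w m‖} with hU
  have hUo : IsOpen U := isOpen_lt continuous_const (continuous_orb n c m).norm
  have hPne : ∀ w ∈ U, ∀ k, Pool.Agent.W746.LD.P n c w k ≠ 0 := by
    intro w hw k
    apply Pool.Agent.W746.LD.P_ne_zero hn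
    intro i _
    exact esc_ne_zero hn hc (esc_of_big hn hc2 hw) i
  set T : ℕ → ℂ → ℂ := fun k w => (Pool.Agent.W746.LD.P n c w k)⁻¹ with hT
  have hTd : ∀ k, DifferentiableOn ℂ (T k) U := fun k w hw =>
    ((Pool.Agent.W746.LD.differentiable_P k w).inv (hPne w hw k)).differentiableWithinAt
  obtain ⟨δ, hδ, hδU⟩ := Metric.isOpen_iff.mp hUo z hm
  set B : Set ℂ := ball z (δ / 2) with hB
  have hBU : closedBall z (δ / 2) ⊆ U := (closedBall_subset_ball (by linarith)).trans hδU
  obtain ⟨M, hM⟩ := (isCompact_closedBall z (δ / 2)).exists_bound_of_continuousOn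
    ((hTd m).continuousOn.mono hBU)
  have hgeo : ∀ k, ∀ w ∈ B, ‖T (k + m) w‖ ≤ M * (1 / 6) ^ k := by
    intro k w hw
    have hwc : w ∈ closedBall z (δ / 2) := ball_subset_closedBall hw
    induction k with
    | zero => simpa using hM w hwc
    | succ k ih =>
      have h1 : 3 ≤ ‖orb n c w (k + m)‖ := by
        rw [add_comm k m, Pool.Agent.W746.LD.orb_add]
        exact orb_big hn hc2 (le_of_lt (hBU hwc)) k
      have h2 := P_step hn h1
      rw [show k + 1 + m = k + m + 1 by ring, pow_succ]
      have h3 : ‖T (k + m + 1) w‖ ≤ 1 / 6 * ‖T (k + m) w‖ := h2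
      linarith
  have hTdB : ∀ k, DifferentiableOn ℂ (T k) B := fun k =>
    (hTd k).mono (ball_subset_closedBall.trans hBU)
  have hsu : Summable fun k : ℕ => M * (1 / 6 : ℝ) ^ k :=
    (summable_geometric_of_lt_one (by norm_num) (by norm_num)).mul_left M
  have hu := tendstoUniformlyOn_tsum_nat (f := fun k w => T (k + m) w) hsu hgeo
  refine ⟨δ / 2, by positivity, ?_, ?_⟩
  · intro j w hw
    exact ((Pool.Agent.W746.LD.differentiableAt_S (j + 1) fun i _ =>
      hPne w (hBU (ball_subset_closedBall hw)) i).const_sub 1).differentiableWithinAt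
  · rw [Metric.tendstoUniformlyOn_iff] at hu ⊢
    intro ε hε
    obtain ⟨N₀, hN₀⟩ := eventually_atTop.mp (hu ε hε)
    filter_upwards [eventually_ge_atTop (N₀ + m)] with j hj w hw
    have h3 : Summable fun k => T k w := by
      rw [← summable_nat_add_iff m]
      exact Summable.of_norm_bounded hsu fun k => hgeo k w hw
    have h4 : V n c w = 1 - (∑ k ∈ Finset.range m, T k w + ∑' k, T (k + m) w) := by
      unfold V
      congr 1
      exact (h3.sum_add_tsum_nat_add m).symm
    have h5 : 1 - S n c w (j + 1) = 1 - (∑ k ∈ Finset.range m, T k w +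
        ∑ k ∈ Finset.range (j + 1 - m), T (k + m) w) := by
      congr 1
      unfold Pool.Agent.W746.LD.S
      conv_lhs => rw [show j + 1 = m + (j + 1 - m) by omega]
      rw [Finset.sum_range_add]
      congr 1
      apply Finset.sum_congr rfl
      intro k _
      rw [hT]
      simp only
      rw [add_comm]
    have h6 := hN₀ (j + 1 - m) (by omega) w hw
    rw [h4, h5, dist_eq_norm]
    rw [dist_eq_norm] at h6
    rw [← norm_neg] at h6
    convert! h6 using 2
    ring

/-- Convergence of the second derivatives. -/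
theorem tendsto_second (hn : 2 ≤ n) {c : ℂ} (hc : c ∈ multibrotSet n) {z : ℂ} (hz : Esc n c z) :
    Tendsto (fun j => deriv (deriv (fun w => 1 - S n c w (j + 1))) z) atTop
      (𝓝 (deriv (deriv (V n c)) z)) := by
  obtain ⟨ε, hε, h1, h2⟩ := unif_V hn hc hz
  have h3 := (h2.tendstoLocallyUniformlyOn.deriv (Filter.Eventually.of_forall h1) isOpen_ball).deriv
    (Filter.Eventually.of_forall fun j => (h1 j).deriv isOpen_ball) isOpen_ball
  exact h3.tendsto_at (mem_ball_self hε)

/-- A compact set of escaping points is outside of the level sets of high order. -/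
theorem eventually_out (hn : 2 ≤ n) {c : ℂ} (hc : ‖c‖ ≤ 2) {Q : Set ℂ} (hQ : IsCompact Q)
    (hQK : Q ⊆ (KK n c)ᶜ) : ∀ᶠ j in atTop, Q ⊆ (EE n c j)ᶜ := by
  have h1 : ∃ j, Q ∩ EE n c j = ∅ := by
    by_contra hcon
    push Not at hcon
    have h2 := IsCompact.nonempty_iInter_of_sequence_nonempty_isCompact_isClosed
      (fun j => Q ∩ EE n c j) (fun j => inter_subset_inter_right _ (EE_anti hn hc (Nat.le_succ j)))
      (fun j => hcon j) (hQ.inter_right (isCompact_EE hn hc 0).isClosed)
      (fun j => hQ.isClosed.inter (isCompact_EE hn hc j).isClosed)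
    obtain ⟨x, hx⟩ := h2
    rw [mem_iInter] at hx
    apply hQK (hx 0).1
    have h3 := iInter_EE hn hc
    show x ∈ KK n c
    rw [show KK n c = ⋂ j, EE n c j from h3.symm, mem_iInter]
    exact fun j => (hx j).2
  obtain ⟨j₀, hj₀⟩ := h1
  filter_upwards [eventually_ge_atTop j₀] with j hj x hx hxE
  have h2 : x ∈ Q ∩ EE n c j₀ := ⟨hx, EE_anti hn hc hj hxE⟩
  rw [hj₀] at h2
  exact h2

theorem isClosed_KK (hn : 2 ≤ n) {c : ℂ} (hc : ‖c‖ ≤ 2) : IsClosed (KK n c) := by
  have h3 := iInter_EE hn hc
  rw [show KK n c = ⋂ j, EE n c j from h3.symm]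
  exact isClosed_iInter fun j => (isCompact_EE hn hc j).isClosed

/-- The Bloch bound. -/
theorem bloch (hn : 2 ≤ n) {c : ℂ} {r : ℝ} (hr : 0 < r) (hsub : ball c r ⊆ multibrotSet n)
    {z : ℂ} (hz : Esc n c z) : r * infDist z (KK n c) * ‖deriv (deriv (V n c)) z‖ ≤ 4 := by
  have hcM : c ∈ multibrotSet n := hsub (mem_ball_self hr)
  have hc2 : ‖c‖ ≤ 2 := norm_le_two_of_sub hn hcM
  have key : ∀ δ : ℝ, 0 < δ → δ < infDist z (KK n c) →
      r * δ * ‖deriv (deriv (V n c)) z‖ ≤ 4 := by
    intro δ hδ hδ2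
    have h1 : closedBall z δ ⊆ (KK n c)ᶜ := by
      intro x hx hxK
      have h2 : infDist z (KK n c) ≤ dist z x := infDist_le_dist_of_mem hxK
      rw [mem_closedBall, dist_comm] at hx
      linarith
    have h2 := ((tendsto_second hn hcM hz).norm).const_mul (r * δ)
    refine le_of_tendsto h2 ?_
    filter_upwards [eventually_out hn hc2 (isCompact_closedBall z δ) h1] with j hj
    exact bloch_level hn hr hsub j hδ hj
  rcases (infDist_nonneg (x := z) (s := KK n c)).eq_or_lt with h0 | h0
  · rw [← h0, mul_zero, zero_mul]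
    norm_num
  · have h1 : Tendsto (fun δ : ℝ => r * δ * ‖deriv (deriv (V n c)) z‖) (𝓝[<] infDist z (KK n c))
        (𝓝 (r * infDist z (KK n c) * ‖deriv (deriv (V n c)) z‖)) := by
      have h2 : Continuous fun δ : ℝ => r * δ * ‖deriv (deriv (V n c)) z‖ := by fun_prop
      exact (h2.tendsto _).mono_left nhdsWithin_le_nhds
    refine le_of_tendsto h1 ?_
    filter_upwards [Ioo_mem_nhdsLT h0] with δ hδ using key δ hδ.1 hδ.2

end Pool.Agent.X151.MB
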